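import Pool.Agent.H84.GL.Basic

/-!
# Lower tail of the model with heavy boundaries
-/

open MeasureTheory ProbabilityTheory
open scoped ENNReal

namespace Pool.Agent.H66.GL

open Pool.Agent.H84.GL Pool.Agent.H99.NS

theorem pf_GLO (h_MGF : T_MGF) (h_CA2 : T_CA2) (h_CA3 : T_CA3) : T_GLO := by
  intro q hq0 hq1
  obtain ⟨c, C, θ₀, hc, hC, hθ₀, hθ₀1, H⟩ := h_CA2 q hq0 hq1
  refine ⟨c, θ₀, hc, hθ₀, ?_⟩
  intro m n hm hn hmn hnm θ σ z hθ hθle hσ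
  have hmR : (0:ℝ) < m := by exact_mod_cast hm
  have hnR : (0:ℝ) < n := by exact_mod_cast hn
  have hmnR : (m:ℝ) ≤ 3 * n := by exact_mod_cast hmn
  have hnmR : (n:ℝ) ≤ 3 * m := by exact_mod_cast hnm
  obtain ⟨H1, H2⟩ := H m n hmR hnR hmnR hnmR
  have hσ0 : 0 ≤ σ := by rcases hσ with h | h <;> linarith
  have hσθ : σ ≤ θ := by rcases hσ with h | h <;> linarith
  set A := AA q m n with hA
  have e1 := H1 σ (by rw [abs_le]; constructor <;> linarith)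
  have e2 := H1 (-θ) (by rw [abs_le]; constructor <;> linarith)
  have hApos : 0 < A := by
    by_contra hneg
    push Not at hneg
    have := mul_nonpos_of_nonpos_of_nonneg hneg (Real.exp_pos σ).le
    linarith [e1.1]
  have h3 := h_MGF q (A * Real.exp σ) (A * Real.exp (-θ)) hq0 hq1 e1.1 e1.2 e2.1 e2.2 m n
  have h4 := h_CA3 q A σ (-θ) m n hq0 hq1 hApos e1.1 e1.2 e2.1 e2.2
  rw [h4] at h3
  have h5 := (H2 (-θ) σ (by linarith) (by linarith) (by linarith)).1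
  have hratio : A * Real.exp (-θ) / (A * Real.exp σ) = Real.exp (-(θ + σ)) := by
    rw [mul_div_mul_left _ _ hApos.ne', ← Real.exp_sub]
    congr 1; ring
  rw [hratio] at h3
  have hmeas : Measurable (fun x : (ℕ → ℕ) × (ℕ → ℕ) × (ℕ × ℕ → ℕ) =>
      (GB x.1 x.2.1 x.2.2 m n : ℝ)) :=
    (measurable_nat (fun n : ℕ => (n : ℝ))).comp (measurable_GB m n)
  have h6 := chernoff_low (PB (A * Real.exp σ) (q / (A * Real.exp (-θ))) q)
    (fun x : (ℕ → ℕ) × (ℕ → ℕ) × (ℕ × ℕ → ℕ) => (GB x.1 x.2.1 x.2.2 m n : ℝ)) hmeas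
    (θ + σ) (gg q m n + z) (by linarith)
  refine h6.trans ?_
  have h7 : ∀ x : (ℕ → ℕ) × (ℕ → ℕ) × (ℕ × ℕ → ℕ),
      ex (-((θ + σ) * (GB x.1 x.2.1 x.2.2 m n : ℝ))) =
      ENNReal.ofReal (Real.exp (-(θ + σ)) ^ (GB x.1 x.2.1 x.2.2 m n)) := by
    intro x
    unfold ex
    rw [← Real.exp_nat_mul]
    congr 2
    ring
  simp_rw [h7]
  rw [h3]
  change ex ((θ + σ) * (gg q m n + z)) * ex (fl q m n A (-θ) - fl q m n A σ) ≤ _
  rw [← ex_add, ex_le_ex]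
  have h8 : 0 ≤ σ ^ 3 := by positivity
  have h9 : 0 ≤ c * ((m:ℝ) + n) * σ ^ 3 := by positivity
  have h10 : (-θ) ^ 3 = - θ ^ 3 := by ring
  rw [h10] at h5
  nlinarith [h5, h9]

end Pool.Agent.H66.GL
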