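import Pool.Agent.H84.GL.Basic

/-!
# Window decomposition of the exit point
-/

open MeasureTheory ProbabilityTheory
open scoped ENNReal

namespace Pool.Agent.H66.GL

open Pool.Agent.H84.GL Pool.Agent.H99.NS

theorem measurable_sup_enn {Ω ι : Type*} [MeasurableSpace Ω] (s : Finset ι) (f : ι → Ω → ℝ≥0∞)
    (h : ∀ k ∈ s, Measurable (f k)) : Measurable (fun ω => s.sup (fun k => f k ω)) := by
  classical
  induction s using Finset.induction_on with
  | empty => simp
  | insert i s _ ih =>
    simp only [Finset.sup_insert]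
    exact (h i (Finset.mem_insert_self i s)).max
      (ih fun k hk => h k (Finset.mem_insert_of_mem hk))

theorem pf_WIN : T_WIN := by
  intro q α lam hlam w a b hw
  set U : ℕ → (ℕ → ℕ) → ℝ≥0∞ := fun j I => (Finset.Ico (j * w) ((j + 1) * w)).sup
    (fun k => ex (lam * (((∑ i ∈ Finset.range (k+1), I i : ℕ) : ℝ) - mu q * (k + 1)))) with hU
  set V : ℕ → (ℕ × ℕ → ℕ) → ℝ≥0∞ := fun j W =>
    ((Finset.Ico (j * w) ((j + 1) * w)).filter (fun k => k ≤ a)).sup
    (fun k => ex (lam * ((LB (hs k W) (a - k) b : ℝ) + mu q * (k + 1)))) with hV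
  have hUm : ∀ j, Measurable (U j) := by
    intro j
    refine measurable_sup_enn _ (fun k (I : ℕ → ℕ) =>
      ex (lam * (((∑ i ∈ Finset.range (k+1), I i : ℕ) : ℝ) - mu q * (k + 1)))) fun k _ => ?_
    refine measurable_ex.comp ?_
    have h2 : Measurable (fun I : ℕ → ℕ => ∑ i ∈ Finset.range (k+1), I i) := by
      fun_prop
    have h3 : Measurable (fun I : ℕ → ℕ => ((∑ i ∈ Finset.range (k+1), I i : ℕ) : ℝ)) :=
      (measurable_nat (fun n : ℕ => (n : ℝ))).comp h2
    exact (h3.sub_const _).const_mul lam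
  have hVm : ∀ j, Measurable (V j) := by
    intro j
    refine measurable_sup_enn _ (fun k (W : ℕ × ℕ → ℕ) =>
      ex (lam * ((LB (hs k W) (a - k) b : ℝ) + mu q * (k + 1)))) fun k _ => ?_
    refine measurable_ex.comp ?_
    have h3 : Measurable (fun W : ℕ × ℕ → ℕ => (LB (hs k W) (a - k) b : ℝ)) :=
      (measurable_nat (fun n : ℕ => (n : ℝ))).comp ((measurable_LB (a - k) b).comp (measurable_hs k))
    exact (h3.add_const _).const_mul lam
  have hpt : ∀ x : (ℕ → ℕ) × (ℕ × ℕ → ℕ), ex (lam * (Gh x.1 x.2 0 a b : ℝ)) ≤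
      ∑ j ∈ Finset.range (a / w + 1), U j x.1 * V j x.2 := by
    intro x
    obtain ⟨k, _, hk, e⟩ := Gh_attained x.1 x.2 0 a b (Nat.zero_le a)
    rw [e]
    have hj : k / w ∈ Finset.range (a / w + 1) := by
      rw [Finset.mem_range]
      exact Nat.lt_succ_of_le (Nat.div_le_div_right hk)
    refine le_trans ?_ (Finset.single_le_sum (f := fun j => U j x.1 * V j x.2)
      (fun i _ => zero_le') hj)
    have hk1 : k ∈ Finset.Ico (k / w * w) ((k / w + 1) * w) := by
      rw [Finset.mem_Ico]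
      refine ⟨Nat.div_mul_le_self k w, ?_⟩
      have := Nat.lt_div_mul_add (a := k) (b := w) hw
      rw [add_mul, one_mul]
      exact this
    have hk2 : k ∈ (Finset.Ico (k / w * w) ((k / w + 1) * w)).filter (fun k => k ≤ a) :=
      Finset.mem_filter.2 ⟨hk1, hk⟩
    have h1 := Finset.le_sup (f := fun k => ex (lam * (((∑ i ∈ Finset.range (k+1), x.1 i : ℕ) : ℝ)
      - mu q * (k + 1)))) hk1
    have h2 := Finset.le_sup (f := fun k => ex (lam * ((LB (hs k x.2) (a - k) b : ℝ)
      + mu q * (k + 1)))) hk2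
    calc ex (lam * ((∑ i ∈ Finset.range (k+1), x.1 i + LB (hs k x.2) (a - k) b : ℕ) : ℝ))
        = ex (lam * (((∑ i ∈ Finset.range (k+1), x.1 i : ℕ) : ℝ) - mu q * (k + 1))) *
          ex (lam * ((LB (hs k x.2) (a - k) b : ℝ) + mu q * (k + 1))) := by
          rw [← ex_add]
          congr 1
          push_cast
          ring
      _ ≤ _ := mul_le_mul' h1 h2
  calc ∫⁻ x, ex (lam * (Gh x.1 x.2 0 a b : ℝ)) ∂(PW α q)
      ≤ ∫⁻ x, ∑ j ∈ Finset.range (a / w + 1), U j x.1 * V j x.2 ∂(PW α q) :=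
        lintegral_mono hpt
    _ = ∑ j ∈ Finset.range (a / w + 1), ∫⁻ x, U j x.1 * V j x.2 ∂(PW α q) := by
        rw [lintegral_finset_sum']
        intro j _
        exact (((hUm j).comp measurable_fst).mul ((hVm j).comp measurable_snd)).aemeasurable
    _ = ∑ j ∈ Finset.range (a / w + 1), ES q α lam w j * EL q lam w j a b := by
        refine Finset.sum_congr rfl fun j _ => ?_
        unfold PW
        rw [lintegral_prod_mul (hUm j).aemeasurable (hVm j).aemeasurable]
        rfl

end Pool.Agent.H66.GL
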